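import Pool.Agent.MWL.Stmts

/-!
# Row TA2 of block MWL: the absorption table, light vectors
-/

namespace Pool.Agent.MWL.H19

open Pool.Agent.MVO Pool.Agent.MWL

theorem lb_succ (a : ℕ → ℕ) (N : ℕ) : lb a (N + 1) = lb a N + if a N = 0 then 0 else 1 := by
  unfold lb
  rw [Finset.range_add_one, Finset.filter_insert]
  by_cases h : a N = 0
  · rw [if_neg (by simpa using h), if_pos h, Nat.add_zero]
  · rw [if_pos h, if_neg h, Finset.card_insert_of_notMem]
    simp

theorem lb_mono (a : ℕ → ℕ) {i j : ℕ} (h : i ≤ j) : lb a i ≤ lb a j := by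
  unfold lb
  apply Finset.card_le_card
  intro x hx
  rw [Finset.mem_filter, Finset.mem_range] at hx ⊢
  exact ⟨by omega, hx.2⟩

theorem lb_lt (a : ℕ → ℕ) {i j : ℕ} (hi : a i ≠ 0) (h : i < j) : lb a i < lb a j := by
  have h1 := lb_mono a (Nat.succ_le_of_lt h)
  have h2 := lb_succ a i
  rw [if_neg hi] at h2
  have h3 : i.succ = i + 1 := rfl
  rw [h3] at h1
  omega

theorem lb_inj (a : ℕ → ℕ) {i j : ℕ} (hi : a i ≠ 0) (hj : a j ≠ 0) (h : lb a i = lb a j) :
    i = j := by
  rcases lt_trichotomy i j with h' | h' | h'
  · have := lb_lt a hi h'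
    omega
  · exact h'
  · have := lb_lt a hj h'
    omega

theorem lb_ex (a : ℕ → ℕ) (N : ℕ) : ∀ m < lb a N, ∃ i < N, a i ≠ 0 ∧ lb a i = m := by
  induction N with
  | zero =>
    intro m hm
    simp [lb] at hm
  | succ N ih =>
    intro m hm
    rw [lb_succ] at hm
    by_cases h : m < lb a N
    · obtain ⟨i, h1, h2, h3⟩ := ih m h
      exact ⟨i, by omega, h2, h3⟩
    · by_cases h0 : a N = 0
      · rw [if_pos h0] at hm
        omega
      · rw [if_neg h0] at hm
        exact ⟨N, by omega, h0, by omega⟩

theorem lb_congr {a b : ℕ → ℕ} {i : ℕ} (h : ∀ p < i, (a p ≠ 0 ↔ b p ≠ 0)) : lb a i = lb b i := by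
  unfold lb
  apply congrArg
  apply Finset.filter_congr
  intro x hx
  rw [Finset.mem_range] at hx
  exact h x hx

theorem deg_eq_lb (k : ℕ) (a : ℕ → ℕ) (h : ∀ p ≤ k, a p ≤ 1) : deg k a = lb a (k + 1) := by
  induction k with
  | zero =>
    have h0 := h 0 (le_refl 0)
    rw [lb_succ]
    have e1 : deg 0 a = a 0 := by simp [deg]
    have e2 : lb a 0 = 0 := by simp [lb]
    rw [e1, e2]
    split_ifs <;> omega
  | succ k ih =>
    have h1 : deg (k + 1) a = deg k a + a (k + 1) := by
      unfold deg
      rw [Finset.sum_range_succ]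
    rw [h1, ih (fun p hp => h p (by omega)), lb_succ a (k + 1)]
    have := h (k + 1) (le_refl _)
    split_ifs <;> omega

/-- the last light block -/
theorem last_ex (k : ℕ) (a : ℕ → ℕ) (h : ∀ p ≤ k, a p ≤ 1) (hq : 1 ≤ deg k a) :
    ∃ j ≤ k, a j = 1 ∧ (∀ p, j < p → p ≤ k → a p = 0) ∧ lb a j = deg k a - 1 := by
  have hd := deg_eq_lb k a h
  obtain ⟨j, h1, h2, h3⟩ := lb_ex a (k + 1) (deg k a - 1) (by omega)
  have h4 := h j (by omega)
  refine ⟨j, by omega, by omega, ?_, h3⟩
  intro p hp hpk
  by_contra hne
  have h5 := lb_lt a h2 hp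
  have h6 := lb_lt a hne (Nat.lt_succ_of_le hpk)
  have h7 : k.succ = k + 1 := rfl
  rw [h7] at h6
  omega

theorem fact (h1 : TrnStmt) (n : ℕ) (R : FC) (k : ℕ) (a : ℕ → ℕ) (hle : ∀ p ≤ k, a p ≤ 1)
    (hq : 1 ≤ deg k a) {j : ℕ} (hj : j ≤ k) (hl : lb a j = deg k a - 1) (haj : a j = 1) :
    Ab n R k a j ↔ Has n R (Bit.J (deg k a)) := by
  have hd := deg_eq_lb k a hle
  have key : ∀ t ≤ k, a t ≠ 0 → lb a t ≤ deg k a - 1 := by
    intro t ht hat
    have h6 := lb_lt a hat (Nat.lt_succ_of_le ht)
    have h7 : k.succ = k + 1 := rfl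
    rw [h7] at h6
    omega
  constructor
  · intro hab
    have hB : BMap k (deg k a - 1) (fun t => min (lb a t) (deg k a - 1)) :=
      ⟨fun x y hxy _ => min_le_min (lb_mono a hxy) (le_refl _), fun x _ => min_le_right _ _⟩
    have h8 := (h1 n R k a j).2.2.2 (deg k a - 1) _ hB hj hab
    have hf : min (lb a j) (deg k a - 1) = deg k a - 1 := by
      rw [hl, min_self]
    rw [hf] at h8
    refine ((h1 n R (deg k a - 1) _ (deg k a - 1)).2.2.1 _ ?_).1 h8
    intro m hm
    obtain ⟨i, hi1, hi2, hi3⟩ := lb_ex a (k + 1) m (by omega)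
    show psh k _ a m = 1
    unfold psh
    rw [Finset.sum_eq_single i]
    · rw [if_pos]
      · have := hle i (by omega)
        omega
      · show min (lb a i) (deg k a - 1) = m
        rw [hi3]
        omega
    · intro t ht hti
      rw [Finset.mem_range] at ht
      by_cases h9 : a t = 0
      · rw [h9, ite_self]
      · rw [if_neg]
        show ¬ min (lb a t) (deg k a - 1) = m
        intro h10
        have h11 := key t (by omega) h9
        rw [min_eq_left h11] at h10
        exact hti (lb_inj a h9 hi2 (by omega))
    · intro hi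
      rw [Finset.mem_range] at hi
      omega
  · intro hab
    have hex : ∀ m, ∃ i, m < deg k a → (i < k + 1 ∧ a i ≠ 0 ∧ lb a i = m) := by
      intro m
      by_cases hm : m < deg k a
      · obtain ⟨i, hi1, hi2, hi3⟩ := lb_ex a (k + 1) m (by omega)
        exact ⟨i, fun _ => ⟨hi1, hi2, hi3⟩⟩
      · exact ⟨0, fun h => absurd h hm⟩
    choose g hg using hex
    have hB : BMap (deg k a - 1) k g := by
      refine ⟨?_, ?_⟩
      · intro x y hxy hy
        obtain ⟨a1, a2, a3⟩ := hg x (by omega)
        obtain ⟨b1, b2, b3⟩ := hg y (by omega)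
        by_contra hlt
        have := lb_lt a b2 (not_le.mp hlt)
        omega
      · intro x hx
        obtain ⟨a1, a2, a3⟩ := hg x (by omega)
        omega
    have hab' : Ab n R (deg k a - 1) (fun _ => 1) (deg k a - 1) := hab
    have h8 := (h1 n R (deg k a - 1) (fun _ => 1) (deg k a - 1)).2.2.2 k g hB (le_refl _) hab'
    have hf : g (deg k a - 1) = j := by
      obtain ⟨a1, a2, a3⟩ := hg (deg k a - 1) (by omega)
      exact lb_inj a a2 (by omega) (by omega)
    rw [hf] at h8
    refine ((h1 n R k _ j).2.2.1 _ ?_).1 h8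
    intro i hi
    unfold psh
    by_cases h0 : a i = 0
    · rw [h0]
      apply Finset.sum_eq_zero
      intro m hm
      rw [Finset.mem_range] at hm
      rw [if_neg]
      intro hgm
      obtain ⟨a1, a2, a3⟩ := hg m (by omega)
      rw [hgm] at a2
      exact a2 h0
    · have h11 := key i hi h0
      rw [Finset.sum_eq_single (lb a i)]
      · rw [if_pos]
        · have := hle i hi
          show (1 : ℕ) = a i
          omega
        · obtain ⟨a1, a2, a3⟩ := hg (lb a i) (by omega)
          exact lb_inj a a2 h0 a3
      · intro m hm hne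
        rw [Finset.mem_range] at hm
        rw [if_neg]
        intro hgm
        obtain ⟨a1, a2, a3⟩ := hg m (by omega)
        rw [hgm] at a3
        exact hne a3.symm
      · intro hm
        rw [Finset.mem_range] at hm
        omega

theorem ad_same (n : ℕ) (a : ℕ → ℕ) (i : ℕ) : ad n a i i = a i + 2 * n := by
  simp [ad]

theorem ad_ne (n : ℕ) (a : ℕ → ℕ) {i j : ℕ} (h : j ≠ i) : ad n a i j = a j := by
  simp [ad, h]

theorem lb_ad (n : ℕ) (a : ℕ → ℕ) {i j : ℕ} (h : i ≤ j) : lb (ad n a j) i = lb a i := by
  apply lb_congr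
  intro p hp
  rw [ad_ne n a (by omega)]

theorem ta2 (h1 : TrnStmt) (h2 : HvpStmt) (_h3 : AbsStmt) (h4 : ArrStmt) (h5 : Ta1Stmt) :
    Ta2Stmt := by
  intro n R hLR k a i hi hle hq
  have hn := hLR.pos
  obtain ⟨j, hjk, haj, hlast, hlj⟩ := last_ex k a hle (by omega)
  have hfact := fact h1 n R k a hle (by omega) hjk hlj haj
  -- absorption at `i ≤ j` gives absorption at `j`
  have habs : i ≤ j → Ab n R k a i → Ab n R k a j := by
    intro hij hab
    have h6 : Ab n R k (ad n a i) j := by
      refine (h2 n R hLR k (ad n a i) j hjk).1 ⟨?_, i, hij, ?_⟩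
      · by_cases h : j = i
        · rw [h, ad_same]
          omega
        · rw [ad_ne n a h]
          omega
      · rw [ad_same]
        omega
    exact ((h1 n R k a j).1 _ hab).2 h6
  refine ⟨?_, ?_, ?_⟩
  · intro hai
    have hij : i ≤ j := by
      by_contra hlt
      have := hlast i (not_le.mp hlt) hi
      omega
    constructor
    · intro hab
      have hJ := hfact.1 (habs hij hab)
      refine ⟨hJ, ?_⟩
      by_cases hEq : i = j
      · have h6 := ((h4 n R hLR).2.2.2.2.1 (deg k a) hq hJ).2
        rw [hEq, hlj]
        exact h6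
      · have hlt : i < j := by omega
        have h6 := (h1 n R k a i).2.1 (fun t => if t = j then 1 else 0) hab
        have h7 := ((h5 n R hLR k (fun t => a t + if t = j then 1 else 0) i hi).2.2.2 (by
            show a i + (if i = j then 1 else 0) = 1
            rw [if_neg hEq]
            omega) (by
            intro p hp
            show a p + (if p = j then 1 else 0) ≤ 1
            rw [if_neg (by omega)]
            exact hle p (by omega)) ⟨j, hlt, hjk, by
            show 2 ≤ a j + (if j = j then 1 else 0)
            rw [if_pos rfl]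
            omega⟩).1 h6
        rw [lb_congr (b := a) (by
          intro p hp
          show (a p + (if p = j then 1 else 0) ≠ 0 ↔ a p ≠ 0)
          rw [if_neg (by omega), Nat.add_zero])] at h7
        exact h7
    · rintro ⟨hJ, hD⟩
      have haJ := hfact.2 hJ
      by_cases hEq : i = j
      · rw [hEq]
        exact haJ
      · have hlt : i < j := by omega
        have h7 := ((h5 n R hLR k (ad n a j) i hi).2.2.2 (by
            rw [ad_ne n a hEq]
            exact hai) (by
            intro p hp
            rw [ad_ne n a (by omega)]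
            exact hle p (by omega)) ⟨j, hlt, hjk, by
            rw [ad_same]
            omega⟩).2 (by
            rw [lb_ad n a hij]
            exact hD)
        exact ((h1 n R k a i).1 _ haJ).2 h7
  · rintro hai ⟨q, hiq, hqk, haq⟩
    have hlt : i < j := by
      by_contra hge
      exact haq (hlast q (by omega) hqk)
    have h3 : Ab n R k a j → (Ab n R k a i ↔ GG n R (lb a i)) := by
      intro haJ
      have h7 := (h5 n R hLR k (ad n a j) i hi).2.2.1 (by
            rw [ad_ne n a (by omega)]
            exact hai) (by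
            intro p hp
            rw [ad_ne n a (by omega)]
            exact hle p (by omega)) ⟨j, hlt, hjk, by
            rw [ad_same]
            omega⟩
      rw [lb_ad n a (le_of_lt hlt)] at h7
      rw [(h1 n R k a i).1 _ haJ]
      exact h7
    constructor
    · intro hab
      have haJ := habs (le_of_lt hlt) hab
      exact ⟨hfact.1 haJ, (h3 haJ).1 hab⟩
    · rintro ⟨hJ, hG⟩
      exact (h3 (hfact.2 hJ)).2 hG
  · intro hai hz
    have hlt : j < i := by
      by_contra hge
      rcases Nat.lt_or_ge i j with h | h
      · have := hz j h hjk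
        omega
      · have h6 : i = j := by omega
        rw [h6] at hai
        omega
    have h3 : Ab n R k a j → (Ab n R k a i ↔ Has n R Bit.E) := by
      intro haJ
      have h7 := (h5 n R hLR k (ad n a j) i hi).2.1 (by
            rw [ad_ne n a (by omega)]
            exact hai) ⟨j, hlt, by
            rw [ad_same]
            omega⟩ (by
            intro q hq1 hq2
            rw [ad_ne n a (by omega)]
            exact hz q hq1 hq2)
      rw [(h1 n R k a i).1 _ haJ]
      exact h7
    constructor
    · intro hab
      have haJ : Ab n R k a j := by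
        have hB : BMap k k (fun t => if j ≤ t ∧ t ≤ i then j else t) := by
          refine ⟨?_, ?_⟩
          · intro x y hxy hy
            show (if j ≤ x ∧ x ≤ i then j else x) ≤ (if j ≤ y ∧ y ≤ i then j else y)
            split_ifs <;> omega
          · intro x hx
            show (if j ≤ x ∧ x ≤ i then j else x) ≤ k
            split_ifs <;> omega
        have h8 := (h1 n R k a i).2.2.2 k _ hB hi hab
        have hf : (if j ≤ i ∧ i ≤ i then j else i) = j := by
          rw [if_pos ⟨by omega, le_refl _⟩]
        rw [hf] at h8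
        refine ((h1 n R k _ j).2.2.1 _ ?_).1 h8
        intro m hm
        unfold psh
        rw [Finset.sum_eq_single m]
        · by_cases hmj : m ≤ j
          · rw [if_pos]
            show (if j ≤ m ∧ m ≤ i then j else m) = m
            split_ifs <;> omega
          · have h9 := hlast m (by omega) hm
            rw [h9, ite_self]
        · intro t ht htm
          rw [Finset.mem_range] at ht
          by_cases htj : t ≤ j
          · rw [if_neg]
            show ¬ (if j ≤ t ∧ t ≤ i then j else t) = m
            split_ifs <;> omega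
          · have h9 := hlast t (by omega) (by omega)
            rw [h9, ite_self]
        · intro hm'
          rw [Finset.mem_range] at hm'
          omega
      exact ⟨hfact.1 haJ, (h3 haJ).1 hab⟩
    · rintro ⟨hJ, hE⟩
      exact (h3 (hfact.2 hJ)).2 hE

end Pool.Agent.MWL.H19
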